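import Pool.Graph.R_pool_sql_team_seeded_843ab51a.V1157.FD.Defs

/-!
# Representations in the Tate classes modulo algebraic classes: definitions
-/

open CategoryTheory AlgebraicGeometry

universe u v w x y

namespace Pool.Agent.Helper56.TateUniv

open Pool.Agent.H914 Pool.Agent.H914.VarClass Pool.Agent.H914.VarClass.Obj Pool.Agent.W492.BB
  Pool.Agent.V1157.BD Pool.Agent.V1157.FD

variable {k : Type u} [Field k] {𝒱 : VarClass k} {C : TheoryData.{u, v, 0} 𝒱 ℚ} {K : Type w}
  [Field K] {G : Type x} [Group G] [TopologicalSpace G] {H : WeilTheoryData.{u, v, w} C K}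
  (R : FormData.{u, v, w, x, y} G H)

/-- The class `t ∈ H^{2r}(X)(r)` is a Tate class: it is fixed by an open subgroup of the Galois
group. -/
def IsTateClass (X : R.Form) (r : ℕ) (t : H.A (R.obj X)) : Prop :=
  H.Deg (2 * r) t ∧ ∃ U : Subgroup G, U ≤ R.grp X ∧ IsOpen (U : Set G) ∧
    ∀ g ∈ U, R.act g X r t = t

/-- The Tate conjecture in dimension `n` and codimension `r`, for the varieties over all finite
extensions of `F`: all Tate classes are linear combinations of classes of cycles over `k`. -/
def TateConjecture (n r : ℕ) : Prop :=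
  ∀ (X : R.Form) (t : H.A (R.obj X)), (R.obj X).dim = n → IsTateClass R X r t → IsAlg H r t

/-- The group `Δ` acts on the variety `X` over `L` from the left, by the morphisms `σ d` over
`L`. -/
structure IsAction (X : R.Form) {Δ : Type} [Group Δ] (σ : Δ → (R.obj X ⟶ R.obj X)) : Prop where
  one : σ 1 = 𝟙 (R.obj X)
  mul : ∀ d e : Δ, σ (d * e) = σ e ≫ σ d
  conj : ∀ g ∈ R.grp X, ∀ d : Δ, R.conj g X X (σ d) = σ d

/-- The morphism `q : X ⟶ Y` is defined over `F`, invariant under the action `σ` of `Δ` on `X`, and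
of degree `κ ≠ 0`; so it is generically finite and surjective. -/
structure IsInvariantCover (X Y : R.Form) {Δ : Type} (σ : Δ → (R.obj X ⟶ R.obj X))
    (q : R.obj X ⟶ R.obj Y) (κ : ℚ) : Prop where
  conj : ∀ g : G, R.conj g X Y q = q
  comp : ∀ d : Δ, σ d ≫ q = q
  ne_zero : κ ≠ 0
  down : C.down q 1 = κ • (1 : C.A (R.obj Y))

/-- The representation `ρ` of `G × Δ` is continuous for the discrete topology: an open subgroup of
`G` acts trivially. (So as a representation of `G` it is an Artin representation.) -/
def HasOpenKernel {Δ : Type} [Group Δ] {E : Type w} [AddCommGroup E] [Module K E]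
    (ρ : Representation K (G × Δ) E) : Prop :=
  ∃ U : Subgroup G, IsOpen (U : Set G) ∧ ∀ g ∈ U, ρ (g, 1) = 1

/-- The representation `ρ` of `G × Δ` occurs above the variety `Y` over `F` of dimension `n` in the
Tate classes modulo algebraic classes: there are a variety `X` over `F` of dimension `n`, an action
of `Δ` on `X` over `F`, a `Δ`-invariant morphism `q : X ⟶ Y` over `F` of degree `κ ≠ 0`, and a
`G × Δ`-equivariant linear map `φ` from the space `E` of `ρ` to the Tate classes in
`H^{2r}(X)(r)`, whose composition with the projection to the Tate classes modulo algebraic classes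
is injective. -/
def OccursAbove (Y : R.Form) (n r : ℕ) {Δ : Type} [Group Δ] {E : Type w} [AddCommGroup E]
    [Module K E] (ρ : Representation K (G × Δ) E) : Prop :=
  ∃ (X : R.Form) (σ : Δ → (R.obj X ⟶ R.obj X)) (q : R.obj X ⟶ R.obj Y) (κ : ℚ)
    (φ : E →ₗ[K] H.A (R.obj X)),
    R.grp X = ⊤ ∧ (R.obj X).dim = n ∧ IsAction R X σ ∧ IsInvariantCover R X Y σ q κ ∧
    (∀ e, IsTateClass R X r (φ e)) ∧
    (∀ g d e, φ (ρ (g, d) e) = R.act g X r (H.up (σ d⁻¹) (φ e))) ∧
    ∀ e, IsAlg H r (φ e) → e = 0

/-- Let `S` be a variety over `L` and `Y` a variety over `F`, both of dimension `n`, let `χ` be a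
surjection of the Galois group of `k` over `L` onto the finite group `Γ`, with open kernel, and `Δ`
a finite group. There are a variety `V` over `F` of dimension `n` with an action of `Δ`, a
`Δ`-invariant morphism `q : V ⟶ Y` over `F` of degree `κ' ≠ 0`, and morphisms `p i m d : V ⟶ S`
over `k`, `i ∈ Γ`, `m < M`, `d ∈ Δ`, of the same degree `κ ≠ 0`, such that the conjugate of
`p i m d` by `g` is `p (χ g * i) m d`, the composition of the action of `e` on `V` and of `p i m d`
is `p i m (d * e)`, and a divisor class `a` on `S` such that for different `(i, m, d)` and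
`(i', m', d')` the class `(p i m d, p i' m' d')_* [V]` on `S × S` is a rational multiple of
`(a × S + S × a) ^ n`. (Let `L'` be the Galois extension of `L` given by `χ`, then `V` is a
`Δ`-invariant complete intersection in the product of `Y` and the restriction of scalars of
`S^{M × Δ}` from `L'` to `F`, and the `p i m d` are the projections to the factors `S` belonging to
the embeddings of `L'` into `k` over `L`.) -/
def HasInvariantIntersection (n : ℕ) (Y : R.Form) {S : R.Form} {Γ : Type x} [Group Γ] (χ : R.grp S →* Γ)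
    (Δ : Type) [Group Δ] (M : ℕ) : Prop :=
  ∃ (V : R.Form) (p : Γ → Fin M → Δ → (R.obj V ⟶ R.obj S)) (σ : Δ → (R.obj V ⟶ R.obj V))
    (q : R.obj V ⟶ R.obj Y) (a : C.A (R.obj S)) (c κ κ' : ℚ),
    R.grp V = ⊤ ∧ (R.obj V).dim = n ∧ C.Deg 1 a ∧ κ ≠ 0 ∧
    (∀ i m d, C.down (p i m d) 1 = κ • (1 : C.A (R.obj S))) ∧
    (∀ i m d i' m' d', (i, m, d) ≠ (i', m', d') →
      C.down (Obj.lift (p i m d) (p i' m' d')) 1 =
        c • (C.up (fst (R.obj S) (R.obj S)) a + C.up (snd (R.obj S) (R.obj S)) a) ^ n) ∧
    (∀ (g : R.grp S) i m d, R.conj g V S (p i m d) = p (χ g * i) m d) ∧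
    IsAction R V σ ∧ (∀ e i m d, σ e ≫ p i m d = p i m (d * e)) ∧ IsInvariantCover R V Y σ q κ'

/-- All the complete intersections above exist. (True for smooth projective varieties over number
fields, for every `n`, by the theorem of Bertini.) -/
def HasInvariantIntersections (n : ℕ) : Prop :=
  ∀ (Y S : R.Form) (Γ : Type x) [Group Γ] [Finite Γ] (χ : R.grp S →* Γ) (Δ : Type) [Group Δ]
    [Finite Δ] (M : ℕ), R.grp Y = ⊤ → (R.obj Y).dim = n → (R.obj S).dim = n →
      Function.Surjective χ → IsOpen (χ.ker : Set (R.grp S)) → HasInvariantIntersection R n Y χ Δ M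

end Pool.Agent.Helper56.TateUniv
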