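import Pool.Agent.Helper56.TateUniv.Defs
import Pool.Graph.R_pool_sql_team_seeded_843ab51a.V1157.FD.Main

/-!
# Representations in the Tate classes modulo algebraic classes
-/

open CategoryTheory AlgebraicGeometry

universe u v w x y

namespace Pool.Agent.Helper56.TateUniv

open Pool.Agent.H914 Pool.Agent.H914.VarClass Pool.Agent.H914.VarClass.Obj Pool.Agent.W492.BB
  Pool.Agent.W550.Corr Pool.Agent.TH133 Pool.Agent.Y148.BB Pool.Agent.V1157.BD
  Pool.Agent.V1157.FD

set_option linter.unusedSectionVars false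

variable {k : Type u} [Field k] {𝒱 : VarClass k} {C : TheoryData.{u, v, 0} 𝒱 ℚ}
  [hC : IsChowProj C] {K : Type w} [Field K] {H : WeilTheoryData.{u, v, w} C K}
  [hH : IsWeilProj H] {n r : ℕ} {G : Type x} [Group G] [TopologicalSpace G]
  {R : FormData.{u, v, w, x, y} G H}

/-- The data of `HasInvariantIntersection`. -/
structure TPow (R : FormData.{u, v, w, x, y} G H) (n : ℕ) {S : R.Form} {Γ : Type x} [Group Γ]
    (χ : R.grp S →* Γ) (Δ : Type) [Group Δ] (M : ℕ) (V : R.Form)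
    (p : Γ → Fin M → Δ → (R.obj V ⟶ R.obj S)) (σ : Δ → (R.obj V ⟶ R.obj V))
    (a : C.A (R.obj S)) (c κ : ℚ) : Prop where
  dimS : (R.obj S).dim = n
  top : R.grp V = ⊤
  dimV : (R.obj V).dim = n
  ha : C.Deg 1 a
  hκ : κ ≠ 0
  pp : ∀ i m d, C.down (p i m d) 1 = κ • (1 : C.A (R.obj S))
  pq : ∀ i m d i' m' d', (i, m, d) ≠ (i', m', d') →
      C.down (Obj.lift (p i m d) (p i' m' d')) 1 =
        c • (C.up (fst (R.obj S) (R.obj S)) a + C.up (snd (R.obj S) (R.obj S)) a) ^ n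
  conj : ∀ (g : R.grp S) i m d, R.conj g V S (p i m d) = p (χ g * i) m d
  act : IsAction R V σ
  comp : ∀ e i m d, σ e ≫ p i m d = p i m (d * e)

section power

variable {S V : R.Form} {Γ : Type x} [Group Γ] {χ : R.grp S →* Γ} {Δ : Type} [Group Δ] {M : ℕ}
    {p : Γ → Fin M → Δ → (R.obj V ⟶ R.obj S)} {σ : Δ → (R.obj V ⟶ R.obj V)}
    {a : C.A (R.obj S)} {c κ : ℚ}

lemma TPow.pw (h : TPow R n χ Δ M V p σ a c κ) {i i' : Γ} {m m' : Fin M} {d d' : Δ}
    (hne : (i, m, d) ≠ (i', m', d')) :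
    Pw C n 2 (fun l => if l = 0 then p i m d else p i' m' d') a c κ where
  dimS := h.dimS
  dimV := h.dimV
  ha := h.ha
  hκ := h.hκ
  pp l hl := by
    by_cases h0 : l = 0
    · rw [if_pos h0]
      exact h.pp i m d
    · rw [if_neg h0]
      exact h.pp i' m' d'
  pq l hl l' hl' hll := by
    by_cases h0 : l = 0
    · rw [if_pos h0, if_neg (by omega)]
      exact h.pq _ _ _ _ _ _ hne
    · rw [if_neg h0, if_pos (by omega)]
      exact h.pq _ _ _ _ _ _ hne.symm

lemma TPow.push_pull_ne (h : TPow R n χ Δ M V p σ a c κ) {i i' : Γ} {m m' : Fin M} {d d' : Δ}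
    (hne : (i, m, d) ≠ (i', m', d')) {t : H.A (R.obj S)} (ht : H.Deg (2 * r) t) :
    IsAlg H r (H.push (p i' m' d') (H.pull (p i m d) t)) :=
  (h.pw hne).push_pull_ne (i := 0) (j := 1) (by omega) (by omega) (by omega) ht

lemma TPow.push_pull (h : TPow R n χ Δ M V p σ a c κ) (i : Γ) (m : Fin M) (d : Δ)
    (t : H.A (R.obj S)) :
    H.push (p i m d) (H.pull (p i m d) t) = sc H (R.obj S) κ * t := by
  have h1 : Pw C n 1 (fun _ => p i m d) a c κ :=
    { dimS := h.dimS, dimV := h.dimV, ha := h.ha, hκ := h.hκ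
      pp := fun l _ => h.pp i m d
      pq := fun l hl l' hl' hne => absurd (by omega) hne }
  exact h1.push_pull (i := 0) (by omega) t

end power

/-- The Tate conjecture can be tested on the varieties over `F`. -/
lemma exists_base (hR : IsGalois R) (hP : HasInvariantIntersections R n) {Y : R.Form}
    (hYG : R.grp Y = ⊤) (hY : (R.obj Y).dim = n) {S : R.Form} (hS : (R.obj S).dim = n) {t : H.A (R.obj S)}
    (ht : IsTateClass R S r t) (hne : ¬ IsAlg H r t) :
    ∃ (V : R.Form) (s : H.A (R.obj V)), R.grp V = ⊤ ∧ (R.obj V).dim = n ∧ IsTateClass R V r s ∧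
      ¬ IsAlg H r s := by
  obtain ⟨ht0, U, hUS, hU, hU'⟩ := ht
  have hker : IsOpen (((1 : R.grp S →* PUnit.{x + 1}).ker : Subgroup (R.grp S)) :
      Set (R.grp S)) := by
    have : ((1 : R.grp S →* PUnit.{x + 1}).ker : Subgroup (R.grp S)) = ⊤ := MonoidHom.ker_one
    rw [this]
    exact isOpen_univ
  obtain ⟨V, p, σ, q, a, c, κ, κ', e1, e2, e3, e4, e5, e6, e7, e8, e9, e10⟩ :=
    hP Y S PUnit.{x + 1} (1 : R.grp S →* PUnit.{x + 1}) Unit 1 hYG hY hS
      (fun _ => ⟨1, rfl⟩) hker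
  have h : TPow R n _ _ _ V p σ a c κ := ⟨hS, e1, e2, e3, e4, e5, e6, e7, e8, e9⟩
  refine ⟨V, H.up (p 1 0 1) t, e1, e2, ⟨H.pull_mem _ ht0, U, by rw [e1]; exact le_top, hU, ?_⟩, ?_⟩
  · intro g hg
    have h1 := hR.pull V S (p 1 0 1) r g (by rw [e1]; exact Subgroup.mem_top _) (hUS hg) t ht0
    rw [h1, hU' g hg]
    have h2 := h.conj ⟨g, hUS hg⟩ 1 0 1
    exact congrArg (fun f => H.up f t) h2
  · intro hcon
    have h1 := alg_push h.dimV h.dimS (p 1 0 1) hcon
    rw [h.push_pull] at h1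
    exact hne (alg_of_sc h.hκ h1)

section main

variable [IsTopologicalGroup G] [CompactSpace G] [TotallyDisconnectedSpace G]
  {E : Type w} [AddCommGroup E] [Module K E]

/-- If the Tate conjecture fails, then all representations with open kernel occur. -/
theorem occurs_of_not (hR : IsGalois R) (hP : HasInvariantIntersections R n)
    {Y : R.Form} (hYG : R.grp Y = ⊤) (hY : (R.obj Y).dim = n) (hne : ¬ TateConjecture R n r) {Δ : Type} [Group Δ] [Finite Δ]
    [Module.Finite K E] (ρ : Representation K (G × Δ) E)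
    (hρ : HasOpenKernel ρ) :
    OccursAbove R Y n r ρ := by
  classical
  obtain ⟨S₀, t₀, hS₀, ht₀, hne₀⟩ : ∃ (S₀ : R.Form) (t₀ : H.A (R.obj S₀)), (R.obj S₀).dim = n ∧
      IsTateClass R S₀ r t₀ ∧ ¬ IsAlg H r t₀ := by
    unfold TateConjecture at hne
    push Not at hne
    exact hne
  obtain ⟨S, t, hSG, hS, ⟨ht, U₁, hU₁S, hU₁, hU₁'⟩, hnt⟩ := exists_base hR hP hYG hY hS₀ ht₀ hne₀
  obtain ⟨U₂, hU₂, hU₂'⟩ := hρ
  obtain ⟨N, hN⟩ := ProfiniteGrp.exist_openNormalSubgroup_sub_open_nhds_of_one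
    (G := G) (hU₁.inter hU₂) ⟨U₁.one_mem, U₂.one_mem⟩
  have hN1 : ∀ g ∈ N.toSubgroup, g ∈ U₁ := fun g hg => (hN hg).1
  have hN2 : ∀ g ∈ N.toSubgroup, g ∈ U₂ := fun g hg => (hN hg).2
  have hNn : N.toSubgroup.Normal := inferInstance
  have hNo : IsOpen (N.toSubgroup : Set G) := N.isOpen'
  have hfin : Finite (G ⧸ N.toSubgroup) := N.toSubgroup.quotient_finite_of_isOpen hNo
  have hmemS : ∀ g : G, g ∈ R.grp S := fun g => by rw [hSG]; exact Subgroup.mem_top _
  let χ : R.grp S →* (G ⧸ N.toSubgroup) := (QuotientGroup.mk' N.toSubgroup).comp (R.grp S).subtype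
  have hχ : Function.Surjective χ := by
    intro i
    obtain ⟨g, rfl⟩ := QuotientGroup.mk'_surjective N.toSubgroup i
    exact ⟨⟨g, hmemS g⟩, rfl⟩
  have hχo : IsOpen (χ.ker : Set (R.grp S)) := by
    have h1 : (χ.ker : Set (R.grp S)) = (R.grp S).subtype ⁻¹' (N.toSubgroup : Set G) := by
      ext g
      change χ g = 1 ↔ _
      change (QuotientGroup.mk' N.toSubgroup) (g : G) = 1 ↔ (g : G) ∈ N.toSubgroup
      rw [← MonoidHom.mem_ker, QuotientGroup.ker_mk']
    rw [h1]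
    exact hNo.preimage continuous_subtype_val
  let b := Module.finBasis K E
  obtain ⟨V, p, σ, q, a, c, κ, κ', e1, e2, e3, e4, e5, e6, e7, e8, e9, e10⟩ :=
    hP Y S (G ⧸ N.toSubgroup) χ Δ (Module.finrank K E) hYG hY hS hχ hχo
  have h : TPow R n χ Δ _ V p σ a c κ := ⟨hS, e1, e2, e3, e4, e5, e6, e7, e8, e9⟩
  have hmemV : ∀ g : G, g ∈ R.grp V := fun g => by rw [e1]; exact Subgroup.mem_top _
  have hft : Fintype (G ⧸ N.toSubgroup) := Fintype.ofFinite _
  have hfd : Fintype Δ := Fintype.ofFinite _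
  -- the conjugates of `t`
  let s : G ⧸ N.toSubgroup → H.A (R.obj S) := fun i => R.act i.out S r t
  have hsd : ∀ i, H.Deg (2 * r) (s i) := fun i => hR.deg S r _ (hmemS _) t ht
  have hout : ∀ g : G, ∃ m ∈ N.toSubgroup, (QuotientGroup.mk (s := N.toSubgroup) g).out = g * m := by
    intro g
    have h2 : (QuotientGroup.mk (s := N.toSubgroup) (QuotientGroup.mk (s := N.toSubgroup) g).out) =
      QuotientGroup.mk g := Quotient.out_eq' _
    refine ⟨g⁻¹ * (QuotientGroup.mk (s := N.toSubgroup) g).out, QuotientGroup.eq.1 h2.symm, ?_⟩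
    rw [mul_inv_cancel_left]
  have hs : ∀ g : G, s (QuotientGroup.mk g) = R.act g S r t := by
    intro g
    obtain ⟨m, hm, hgm⟩ := hout g
    change R.act (QuotientGroup.mk (s := N.toSubgroup) g).out S r t = _
    rw [hgm, hR.mul S r g (hmemS _) m (hmemS _) t ht, hU₁' m (hN1 m hm)]
  have hact : ∀ (g : G) (i : G ⧸ N.toSubgroup), R.act g S r (s i) =
      s (QuotientGroup.mk g * i) := by
    intro g i
    obtain ⟨g', rfl⟩ := QuotientGroup.mk_surjective i
    rw [hs g', ← hR.mul S r g (hmemS _) g' (hmemS _) t ht, ← hs]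
    rfl
  -- the coefficients
  let co : G ⧸ N.toSubgroup → Δ → E →ₗ[K] E := fun i d => ρ (i.out⁻¹, d)
  have hco : ∀ (g : G) (d : Δ), co (QuotientGroup.mk g) d = ρ (g⁻¹, d) := by
    intro g d
    obtain ⟨m, hm, hgm⟩ := hout g
    change ρ ((QuotientGroup.mk (s := N.toSubgroup) g).out⁻¹, d) = _
    have h1 : (((QuotientGroup.mk (s := N.toSubgroup) g).out⁻¹, d) : G × Δ) =
        (m⁻¹, 1) * (g⁻¹, d) := by
      rw [hgm, mul_inv_rev]
      exact Prod.ext rfl (one_mul d).symm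
    rw [h1, map_mul, hU₂' m⁻¹ (hN2 _ (N.toSubgroup.inv_mem hm)), one_mul]
  have hco2 : ∀ (g : G) (i : G ⧸ N.toSubgroup) (d e : Δ) (z : E),
      co (QuotientGroup.mk g * i) (d * e⁻¹) (ρ (g, e) z) = co i d z := by
    intro g i d e z
    obtain ⟨g', rfl⟩ := QuotientGroup.mk_surjective i
    have h1 : (QuotientGroup.mk g * QuotientGroup.mk g' : G ⧸ N.toSubgroup) =
      QuotientGroup.mk (g * g') := rfl
    rw [h1, hco, hco]
    have h2 := map_mul ρ (((g * g')⁻¹, d * e⁻¹) : G × Δ) (g, e)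
    have h3 : (((g * g')⁻¹, d * e⁻¹) : G × Δ) * (g, e) = (g'⁻¹, d) := by
      refine Prod.ext ?_ ?_
      · change (g * g')⁻¹ * g = g'⁻¹
        group
      · change d * e⁻¹ * e = d
        group
    rw [h3] at h2
    rw [h2]
    rfl
  -- the equivariant map
  let ι := (G ⧸ N.toSubgroup) × Fin (Module.finrank K E) × Δ
  let w : ι → H.A (R.obj V) := fun q => H.up (p q.1 q.2.1 q.2.2) (s q.1)
  have hwd : ∀ q, H.Deg (2 * r) (w q) := fun q => H.pull_mem _ (hsd q.1)
  let φ : E →ₗ[K] H.A (R.obj V) := ∑ q : ι,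
    ((b.coord q.2.1).comp (co q.1 q.2.2)).smulRight (w q)
  have hφ : ∀ z, φ z = ∑ q : ι, (b.coord q.2.1 (co q.1 q.2.2 z)) • w q := by
    intro z
    simp [φ, LinearMap.sum_apply]
  have hφd : ∀ z, H.Deg (2 * r) (φ z) := by
    intro z
    rw [hφ]
    exact Submodule.sum_mem _ fun q _ => Submodule.smul_mem _ _ (hwd q)
  -- Galois action on sums
  have hsum : ∀ (g : G) (A : Finset ι) (f : ι → H.A (R.obj V)),
      (∀ i, H.Deg (2 * r) (f i)) → R.act g V r (∑ i ∈ A, f i) = ∑ i ∈ A, R.act g V r (f i) := by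
    intro g A f hf
    induction A using Finset.induction_on with
    | empty =>
      rw [Finset.sum_empty, Finset.sum_empty]
      have := hR.smul V r g (hmemV g) 0 0 (Submodule.zero_mem _)
      rwa [zero_smul, zero_smul] at this
    | insert i A hi ih =>
      rw [Finset.sum_insert hi, Finset.sum_insert hi, hR.add V r g (hmemV g) _ _ (hf i)
        (Submodule.sum_mem _ fun j _ => hf j), ih]
  have hw : ∀ (g : G) (e : Δ) (q : ι), R.act g V r (H.up (σ e⁻¹) (w q)) =
      w (QuotientGroup.mk g * q.1, q.2.1, q.2.2 * e⁻¹) := by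
    intro g e q
    have h1 : H.up (σ e⁻¹) (w q) = H.up (p q.1 q.2.1 (q.2.2 * e⁻¹)) (s q.1) := by
      have h2 := H.pull_comp (σ e⁻¹) (p q.1 q.2.1 q.2.2) (s q.1)
      rw [h.comp] at h2
      exact h2.symm
    rw [h1, hR.pull V S _ r g (hmemV g) (hmemS g) _ (hsd q.1), hact]
    have h3 := h.conj ⟨g, hmemS g⟩ q.1 q.2.1 (q.2.2 * e⁻¹)
    exact congrArg (fun f => H.up f (s (QuotientGroup.mk g * q.1))) h3
  have hequiv : ∀ (g : G) (e : Δ) (z : E),
      φ (ρ (g, e) z) = R.act g V r (H.up (σ e⁻¹) (φ z)) := by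
    intro g e z
    have hup : H.up (σ e⁻¹) (φ z) =
        ∑ q : ι, H.up (σ e⁻¹) ((b.coord q.2.1 (co q.1 q.2.2 z)) • w q) := by
      rw [hφ z]
      exact map_sum (H.pull (σ e⁻¹)) _ _
    rw [hup, hsum g]
    · rw [hφ]
      let f : ι ≃ ι := (Equiv.mulLeft (QuotientGroup.mk g)).prodCongr
        ((Equiv.refl _).prodCongr (Equiv.mulRight e⁻¹))
      have hf : ∀ q, f q = (QuotientGroup.mk g * q.1, q.2.1, q.2.2 * e⁻¹) := fun q => rfl
      rw [← Equiv.sum_comp f]
      refine Finset.sum_congr rfl fun q _ => ?_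
      have hsm : H.up (σ e⁻¹) ((b.coord q.2.1 (co q.1 q.2.2 z)) • w q) =
          (b.coord q.2.1 (co q.1 q.2.2 z)) • H.up (σ e⁻¹) (w q) := map_smul (H.pull (σ e⁻¹)) _ _
      rw [hsm, hR.smul V r g (hmemV g) _ _ (H.pull_mem _ (hwd q)), hw g e q, hf q]
      exact congrArg (fun x => b.coord q.2.1 x • w (QuotientGroup.mk g * q.1, q.2.1,
        q.2.2 * e⁻¹)) (hco2 g q.1 q.2.2 e z)
    · intro q
      exact H.pull_mem _ (Submodule.smul_mem _ _ (hwd q))
  refine ⟨V, σ, q, κ', φ, e1, e2, e8, e10, ?_, hequiv, ?_⟩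
  · intro z
    refine ⟨hφd z, N.toSubgroup, by rw [e1]; exact le_top, hNo, ?_⟩
    intro g hg
    have h1 := hequiv g 1 z
    have h2 : H.up (𝟙 (R.obj V)) (φ z) = φ z := H.pull_id (φ z)
    rw [inv_one, e8.one, h2, hU₂' g (hN2 g hg)] at h1
    exact h1.symm
  · intro z hz
    have h0 : s (QuotientGroup.mk 1) = t := by rw [hs 1, hR.one S r t ht]
    have h0' : co (QuotientGroup.mk 1) 1 z = z := by
      rw [hco 1 1, inv_one]
      exact congrArg (fun f : E →ₗ[K] E => f z) (map_one ρ)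
    have key : ∀ m, b.coord m z = 0 := by
      intro m
      by_contra hcon
      let q₀ : ι := (QuotientGroup.mk 1, m, 1)
      have h1 := alg_push h.dimV h.dimS (p q₀.1 q₀.2.1 q₀.2.2) hz
      rw [hφ, map_sum, ← Finset.add_sum_erase _ _ (Finset.mem_univ q₀)] at h1
      have h2 : IsAlg H r (∑ q ∈ Finset.univ.erase q₀, H.push (p q₀.1 q₀.2.1 q₀.2.2)
          ((b.coord q.2.1 (co q.1 q.2.2 z)) • w q)) := by
        apply alg_sum
        intro q hq
        rw [map_smul]
        refine alg_smul _ (h.push_pull_ne ?_ (hsd q.1))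
        exact (Finset.mem_erase.1 hq).1
      have h3 := alg_sub h1 h2
      rw [add_sub_cancel_right, map_smul] at h3
      have h4 := alg_smul (b.coord q₀.2.1 (co q₀.1 q₀.2.2 z))⁻¹ h3
      have h5 : b.coord q₀.2.1 (co q₀.1 q₀.2.2 z) = b.coord m z := by
        change b.coord m (co (QuotientGroup.mk 1) 1 z) = _
        rw [h0']
      rw [smul_smul, h5, inv_mul_cancel₀ hcon, one_smul, h.push_pull] at h4
      have h6 := alg_of_sc h.hκ h4
      rw [show s q₀.1 = t from h0] at h6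
      exact hnt h6
    exact b.ext_elem fun m => by
      have := key m
      rw [b.coord_apply] at this
      rw [this, map_zero]
      rfl

omit [IsTopologicalGroup G] [CompactSpace G] [TotallyDisconnectedSpace G] hC hH in
/-- If the Tate conjecture holds, then the trivial representation does not occur. -/
theorem not_occurs (h : TateConjecture R n r) (Y : R.Form) :
    ¬ OccursAbove R Y n r (Representation.trivial K (G × Unit) K) := by
  rintro ⟨X, σ, q, κ, φ, h1, h2, h3, h4, h5, h6, h7⟩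
  exact one_ne_zero (h7 1 (h X _ h2 (h5 1)))

end main

end Pool.Agent.Helper56.TateUniv
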